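import Pool.Agent.T2h49.AP.TrB
import Pool.Agent.T2h19.AP.Stm

/-! Project AP, task CON (helper49): extension of functions from the basic cell. -/

set_option autoImplicit false

open MvPolynomial

namespace Pool.Agent.T2h49.AP

open Pool.Agent.T2h19.AP

variable {ι : Type} [Fintype ι] [DecidableEq ι]

theorem con_consistent (hHOM : S_HOM) {K : Cells ι} (hK : K.Cov) (d : ℤ) (s₀ : (ι → ℂ) → ℂ)
    (g : ((ι → ℂ) ≃ₗ[ℂ] (ι → ℂ)) → MvPolynomial (Fin 6) ℂ)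
    (hg : ∀ w ∈ K.W, ∀ t : ℂ, t ≠ 0 → ∀ u, K.L 0 (w (t • K.pt u)) ≠ 0 →
        s₀ (w (t • K.pt u)) = t ^ d * eval u (g w))
    (w₁ w₂ : (ι → ℂ) ≃ₗ[ℂ] (ι → ℂ)) (hw₁ : w₁ ∈ K.W) (hw₂ : w₂ ∈ K.W) (t₁ t₂ : ℂ)
    (u₁ u₂ : Fin 6 → ℂ) (h1 : t₁ ≠ 0) (h2 : t₂ ≠ 0)
    (h : w₁ (t₁ • K.pt u₁) = w₂ (t₂ • K.pt u₂)) :
    t₁ ^ d * eval u₁ (g w₁) = t₂ ^ d * eval u₂ (g w₂) := by
  obtain ⟨e0, e1⟩ := two_cells hK w₁ w₂ t₁ t₂ u₁ u₂ h1 h2 h
  -- the generic transition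
  have tr : ∀ u, eval u (K.q (w₁.trans w₂.symm)) ≠ 0 →
      w₁ (K.pt u) = w₂ (eval u (K.q (w₁.trans w₂.symm)) • K.pt
        (fun j => eval u (pj K (w₁.trans w₂.symm) j) / eval u (K.q (w₁.trans w₂.symm)))) := by
    intro u hr
    have hC : (w₁.trans w₂.symm) (K.pt u) ∈ K.C := by
      rw [LinearEquiv.trans_apply]
      exact Cells.symm_mem hK hw₂ ((hK.mem_iff w₁ hw₁ _).2 (Cells.pt_mem hK u))
    have a1 := trans_pt hK (w₁.trans w₂.symm) u hC hr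
    rw [← a1, LinearEquiv.trans_apply, LinearEquiv.apply_symm_apply]
  generalize hρ : K.q (w₁.trans w₂.symm) = ρ at e0 e1 tr
  generalize hP : pj K (w₁.trans w₂.symm) = P at e1 tr
  obtain ⟨M₀, hM⟩ := hHOM (Fin 6) (g w₂)
  obtain ⟨M, hMd⟩ : ∃ M : ℕ, M = M₀ + d.toNat := ⟨_, rfl⟩
  obtain ⟨H, hH, _⟩ := hM M (by omega) ρ P
  obtain ⟨k, hk⟩ : ∃ k : ℕ, (k : ℤ) = M - d := ⟨((M : ℤ) - d).toNat, by omega⟩
  -- the generic identity
  have gen : ∀ u, eval u (K.q w₁) ≠ 0 → eval u ρ ≠ 0 →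
      eval u ρ ^ k * eval u (g w₁) = eval u H := by
    intro u hq hr
    have a2 := tr u hr
    have hq' : K.L 0 (w₁ (K.pt u)) ≠ 0 := by rwa [← K.eval_q]
    have b1 : s₀ (w₁ (K.pt u)) = eval u (g w₁) := by
      have := hg w₁ hw₁ 1 one_ne_zero u (by rwa [one_smul])
      rwa [one_smul, one_zpow, one_mul] at this
    have b2 : s₀ (w₁ (K.pt u)) = eval u ρ ^ d *
        eval (fun j => eval u (P j) / eval u ρ) (g w₂) := by
      rw [a2]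
      refine hg w₂ hw₂ _ hr _ ?_
      rw [← a2]
      exact hq'
    rw [hH u hr, ← b1, b2, ← mul_assoc]
    congr 1
    rw [← zpow_natCast, ← zpow_natCast, ← zpow_add₀ hr, hk]
    congr 1
    ring
  have hpoly : ρ ^ k * g w₁ = H := by
    have hr0 : ρ ≠ 0 := by
      intro h0
      rw [h0, map_zero] at e0
      exact div_ne_zero h2 h1 e0.symm
    have hq0 : K.q w₁ ≠ 0 := hK.q_ne w₁ hw₁
    have h3 : K.q w₁ * ρ * (ρ ^ k * g w₁ - H) = 0 := by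
      apply MvPolynomial.funext
      intro u
      rw [map_mul, map_mul, map_sub, map_mul, map_pow, map_zero]
      by_cases c1 : eval u (K.q w₁) = 0
      · rw [c1]; ring
      by_cases c2 : eval u ρ = 0
      · rw [c2]; ring
      rw [gen u c1 c2, sub_self, mul_zero]
    have h4 := (mul_eq_zero.1 h3).resolve_left (mul_ne_zero hq0 hr0)
    exact sub_eq_zero.1 h4
  have hr1 : eval u₁ ρ ≠ 0 := by rw [e0]; exact div_ne_zero h2 h1
  have h5 : eval u₁ ρ ^ k * eval u₁ (g w₁) = eval u₁ ρ ^ M * eval u₂ (g w₂) := by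
    rw [← map_pow, ← map_mul, hpoly, hH u₁ hr1, e1]
  have h6 : eval u₁ (g w₁) = eval u₁ ρ ^ d * eval u₂ (g w₂) := by
    have h7 : eval u₁ ρ ^ k ≠ 0 := pow_ne_zero _ hr1
    apply mul_left_cancel₀ h7
    rw [h5, ← mul_assoc]
    congr 1
    rw [← zpow_natCast, ← zpow_natCast, ← zpow_add₀ hr1, hk]
    congr 1
    ring
  rw [h6, e0, div_zpow, ← mul_assoc, mul_div_cancel₀]
  exact zpow_ne_zero _ h1

theorem con (hHOM : S_HOM) : S_CON := by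
  intro ι _ _ K hK d s₀ g hg
  classical
  let Q : (ι → ℂ) → (((ι → ℂ) ≃ₗ[ℂ] (ι → ℂ)) × ℂ × (Fin 6 → ℂ)) → Prop := fun z p =>
    p.1 ∈ K.W ∧ p.2.1 ≠ 0 ∧ z = p.1 (p.2.1 • K.pt p.2.2)
  let s : (ι → ℂ) → ℂ := fun z => if h : ∃ p, Q z p then
    h.choose.2.1 ^ d * eval h.choose.2.2 (g h.choose.1) else 0
  have hs : K.Reg d s g := by
    intro w hw t ht u
    have h : ∃ p, Q (w (t • K.pt u)) p := ⟨(w, t, u), hw, ht, rfl⟩
    have e : s (w (t • K.pt u)) = h.choose.2.1 ^ d * eval h.choose.2.2 (g h.choose.1) := dif_pos h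
    rw [e]
    obtain ⟨c1, c2, c3⟩ := h.choose_spec
    exact (con_consistent hHOM hK d s₀ g hg w _ hw c1 t _ u _ ht c2 c3).symm
  refine ⟨s, hs, fun z hz h0 => ?_⟩
  have hz0 : z ≠ 0 := by
    rintro rfl
    exact h0 (map_zero _)
  obtain ⟨w, hw, t, u, ht, rfl⟩ := hK.cover z hz hz0
  have e1 := hs w hw t ht u
  rw [show K.pt u = ev K.φ u from rfl] at e1
  rw [e1]
  exact (hg w hw t ht u h0).symm

end Pool.Agent.T2h49.AP
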