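import Pool.Agent.T2h49.AP.TrB
import Pool.Agent.T2h19.AP.Stm

/-! Project AP, task DIV (helper49): division by `L_0`. -/

set_option autoImplicit false

open MvPolynomial

namespace Pool.Agent.T2h49.AP

open Pool.Agent.T2h19.AP

variable {ι : Type} [Fintype ι] [DecidableEq ι]

theorem q_smul (K : Cells ι) (w : (ι → ℂ) ≃ₗ[ℂ] (ι → ℂ)) (t : ℂ) (u : Fin 6 → ℂ) :
    K.L 0 (w (t • K.pt u)) = t * eval u (K.q w) := by
  rw [K.eval_q, map_smul, map_smul, smul_eq_mul]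

theorem div_dvd (hHOM : S_HOM) {K : Cells ι} (hK : K.Cov) (hN : K.Nbr) (d : ℤ)
    (s : (ι → ℂ) → ℂ) (g : ((ι → ℂ) ≃ₗ[ℂ] (ι → ℂ)) → MvPolynomial (Fin 6) ℂ)
    (hs : K.Reg d s g) (hd : K.q K.γ ∣ g K.γ) (w : (ι → ℂ) ≃ₗ[ℂ] (ι → ℂ)) (hw : w ∈ K.W) :
    K.q w ∣ g w := by
  obtain ⟨h, hh⟩ := hd
  have hw' : w.trans K.γ ∈ K.W := hN.γ_mul w hw
  have tr : ∀ u, eval u (K.q (w.trans K.γ)) ≠ 0 →
      w (K.pt u) = K.γ (eval u (K.q (w.trans K.γ)) • K.pt
        (fun j => eval u (pj K (w.trans K.γ) j) / eval u (K.q (w.trans K.γ)))) := by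
    intro u hr
    have hC : (w.trans K.γ) (K.pt u) ∈ K.C := (hK.mem_iff _ hw' _).2 (Cells.pt_mem hK u)
    have a1 := trans_pt hK (w.trans K.γ) u hC hr
    rw [← a1, LinearEquiv.trans_apply, hN.γγ]
  have hq'0 : K.q (w.trans K.γ) ≠ 0 := hK.q_ne _ hw'
  have hcop : IsRelPrime (K.q w) (K.q (w.trans K.γ)) := hN.cop w hw
  generalize hρ : K.q (w.trans K.γ) = q' at tr hq'0 hcop
  generalize hP : pj K (w.trans K.γ) = P at tr
  obtain ⟨M₀, hM⟩ := hHOM (Fin 6) h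
  obtain ⟨M, hMd⟩ : ∃ M : ℕ, M = M₀ + d.toNat := ⟨_, rfl⟩
  obtain ⟨H, hH, _⟩ := hM M (by omega) q' P
  obtain ⟨k, hk⟩ : ∃ k : ℕ, (k : ℤ) = M + 1 - d := ⟨((M : ℤ) + 1 - d).toNat, by omega⟩
  have gen : ∀ u, eval u q' ≠ 0 →
      eval u q' ^ k * eval u (g w) = eval u (K.q w) * eval u H := by
    intro u hr
    have a2 := tr u hr
    obtain ⟨u', hu'⟩ : ∃ u' : Fin 6 → ℂ, u' = fun j => eval u (P j) / eval u q' := ⟨_, rfl⟩
    rw [← hu'] at a2
    have b1 : s (w (K.pt u)) = eval u (g w) := by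
      have := hs w hw 1 one_ne_zero u
      rwa [one_smul, one_zpow, one_mul] at this
    have b2 : s (w (K.pt u)) = eval u q' ^ d * (eval u' (K.q K.γ) * eval u' h) := by
      rw [a2, hs K.γ hN.γ_mem _ hr u', hh, map_mul]
    have b3 : eval u (K.q w) = eval u q' * eval u' (K.q K.γ) := by
      rw [K.eval_q, a2, q_smul]
    have b4 : eval u H = eval u q' ^ M * eval u' h := by rw [hH u hr, hu']
    rw [← b1, b2, b3, b4]
    have e1 : eval u q' ^ k * (eval u q' ^ d * (eval u' (K.q K.γ) * eval u' h)) =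
        (eval u q' ^ k * eval u q' ^ d) * (eval u' (K.q K.γ) * eval u' h) := by ring
    have e2 : eval u q' ^ k * eval u q' ^ d = eval u q' ^ (M + 1) := by
      rw [← zpow_natCast, ← zpow_natCast, ← zpow_add₀ hr, hk]
      congr 1
      push_cast
      ring
    rw [e1, e2]
    ring
  have hpoly : q' ^ k * g w = K.q w * H := by
    have h3 : q' * (q' ^ k * g w - K.q w * H) = 0 := by
      apply MvPolynomial.funext
      intro u
      rw [map_mul, map_sub, map_mul, map_mul, map_pow, map_zero]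
      by_cases c2 : eval u q' = 0
      · rw [c2]; ring
      rw [gen u c2, sub_self, mul_zero]
    exact sub_eq_zero.1 ((mul_eq_zero.1 h3).resolve_left hq'0)
  have h4 : IsRelPrime (K.q w) (q' ^ k) := hcop.pow_right
  exact h4.dvd_of_dvd_mul_left ⟨H, hpoly⟩

theorem div_ (hHOM : S_HOM) (hCON : S_CON) : S_DIV := by
  intro ι _ _ K hK hN d s g hs hd
  classical
  have key : ∀ w ∈ K.W, K.q w ∣ g w := fun w hw => div_dvd hHOM hK hN d s g hs hd w hw
  let g' : ((ι → ℂ) ≃ₗ[ℂ] (ι → ℂ)) → MvPolynomial (Fin 6) ℂ := fun w =>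
    if h : K.q w ∣ g w then h.choose else 0
  have hg' : ∀ w ∈ K.W, g w = K.q w * g' w := by
    intro w hw
    have e : g' w = (key w hw).choose := dif_pos (key w hw)
    rw [e]
    exact (key w hw).choose_spec
  obtain ⟨s', hs', _⟩ := hCON ι K hK (d - 1) (fun z => s z / K.L 0 z) g' (by
    intro w hw t ht u h0
    rw [q_smul] at h0 ⊢
    rw [hs w hw t ht u, hg' w hw, map_mul, div_eq_iff h0, zpow_sub_one₀ ht]
    field_simp)
  refine ⟨s', g', hs', hg', fun z hz hz0 => ?_⟩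
  obtain ⟨w, hw, t, u, ht, rfl⟩ := hK.cover z hz hz0
  have e1 := hs' w hw t ht u
  have e2 := hs w hw t ht u
  have e3 := q_smul K w t u
  rw [show K.pt u = ev K.φ u from rfl] at e1 e2 e3
  rw [e1, e2, e3, hg' w hw, map_mul, zpow_sub_one₀ ht]
  field_simp

end Pool.Agent.T2h49.AP
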