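import Pool.Agent.T2h49.AP.TrB
import Pool.Agent.T2h19.AP.Stm

/-! Project AP, task JCW (helper49): the jacobians of the automorphisms in `W`. -/

set_option autoImplicit false

open MvPolynomial

namespace Pool.Agent.T2h49.AP

open Pool.Agent.T2h19.AP

variable {ι : Type} [Fintype ι] [DecidableEq ι]

/-- the polynomials which give the frame -/
noncomputable def frameP (φ : ι → MvPolynomial (Fin 6) ℂ) : Fin 7 → ι → MvPolynomial (Fin 6) ℂ :=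
  Fin.cons φ (fun a i => pderiv a (φ i))

omit [Fintype ι] [DecidableEq ι] in
theorem ev_frameP (φ : ι → MvPolynomial (Fin 6) ℂ) (u : Fin 6 → ℂ) (i : Fin 7) :
    ev (frameP φ i) u = frame φ u i := by
  refine Fin.cases ?_ (fun a => ?_) i
  · rfl
  · rfl

/-- the jacobian -/
noncomputable def Jp (K : Cells ι) (w : (ι → ℂ) ≃ₗ[ℂ] (ι → ℂ)) : MvPolynomial (Fin 6) ℂ :=
  Matrix.det (Matrix.of fun i j => pull (frameP K.φ i) (form (K.L j ∘ₗ w.toLinearMap)))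

theorem eval_Jp (K : Cells ι) (w : (ι → ℂ) ≃ₗ[ℂ] (ι → ℂ)) (u : Fin 6 → ℂ) :
    eval u (Jp K w) = omega K.L (fun i => w (frame K.φ u i)) := by
  unfold Jp
  rw [omega_apply, RingHom.map_det]
  congr 1
  ext i j
  rw [RingHom.mapMatrix_apply, Matrix.map_apply, Matrix.of_apply, Matrix.of_apply, eval_pull,
    eval_form, ev_frameP]
  rfl

/-- the jacobian does not vanish on the basic cell -/
theorem J_ne (hOMF : S_OMF) (hTAN : S_TAN) (hALT : S_ALT) {K : Cells ι} (hK : K.Cov) (hN : K.Nbr)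
    (w : (ι → ℂ) ≃ₗ[ℂ] (ι → ℂ)) (hw : w ∈ K.W) (u : Fin 6 → ℂ) (hq : eval u (K.q w) ≠ 0) :
    eval u (Jp K w) ≠ 0 := by
  intro h0
  rw [eval_Jp] at h0
  rw [K.eval_q] at hq
  have hz : w (K.pt u) ∈ K.C := (hK.mem_iff w hw _).2 (Cells.pt_mem hK u)
  have e1 := Cells.eq_smul hK hz hq
  obtain ⟨u₁, hu₁⟩ : ∃ u₁ : Fin 6 → ℂ,
    u₁ = fun j => K.L j.succ (w (K.pt u)) / K.L 0 (w (K.pt u)) := ⟨_, rfl⟩
  rw [← hu₁] at e1
  have t1 := hTAN ι K hK w hw 1 one_ne_zero u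
  rw [one_smul] at t1
  have t2 := hTAN ι K hK (LinearEquiv.refl ℂ (ι → ℂ)) hN.one_mem (K.L 0 (w (K.pt u))) hq u₁
  rw [LinearEquiv.refl_apply, ← e1, t1] at t2
  have h1 := hALT ι (omega K.L) (omega K.L) (fun i => w (frame K.φ u i)) 0 (by
    rw [h0, zero_mul]) (frame K.φ u₁) (fun i => by
      rw [t2]
      exact Submodule.subset_span ⟨i, rfl⟩)
  have h2 := (hOMF ι K hK u₁).1
  rw [h2, zero_mul] at h1
  exact one_ne_zero h1

/-- a consequence of the Nullstellensatz -/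
theorem null (p q : MvPolynomial (Fin 6) ℂ) (hp : Irreducible p)
    (h : ∀ u, eval u p = 0 → eval u q = 0) : p ∣ q := by
  have h1 : q ∈ vanishingIdeal ℂ (zeroLocus ℂ (Ideal.span {p})) := by
    rw [mem_vanishingIdeal_iff]
    intro u hu
    rw [mem_zeroLocus_iff] at hu
    have := hu p (Ideal.mem_span_singleton_self p)
    rw [aeval_eq_eval] at this ⊢
    exact h u this
  rw [vanishingIdeal_zeroLocus_eq_radical] at h1
  obtain ⟨n, hn⟩ := h1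
  rw [Ideal.mem_span_singleton] at hn
  exact hp.prime.dvd_of_dvd_pow hn

/-- an application of GAM -/
theorem g1 (hGAM : S_GAM) {K : Cells ι} (hK : K.Cov) (hN : K.Nbr) (z : ι → ℂ) (hz : z ∈ K.C)
   (hL : K.L 0 z ≠ 0) (v : Fin 7 → ι → ℂ) (hv : ∀ i, v i ∈ tangent (ideal K.C) z) : 
  K.L 0 z ^ 4 * omega K.L (fun i => K.γ (v i)) = K.κ * K.L 0 (K.γ z) ^ 4 * omega K.L v := 
   hGAM ι K hK hN z hz hL v hv

theorem gam_use0 (hTAN : S_TAN) {K : Cells ι} (hK : K.Cov) 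
    (w' : (ι → ℂ) ≃ₗ[ℂ] (ι → ℂ)) (hw' : w' ∈ K.W)
     (u : Fin 6 → ℂ) (i : Fin 7) :
    w' (frame K.φ u i) ∈ tangent (ideal K.C) (w' (K.pt u)) := by
  have t1 := hTAN ι K hK w' hw' 1 one_ne_zero u
  rw [one_smul] at t1
  rw [t1]
  exact Submodule.subset_span ⟨i, rfl⟩

theorem gam_use (hTAN : S_TAN) (hGAM : S_GAM) {K : Cells ι} (hK : K.Cov) (hN : K.Nbr)
    (w : (ι → ℂ) ≃ₗ[ℂ] (ι → ℂ)) (w' : (ι → ℂ) ≃ₗ[ℂ] (ι → ℂ)) (hw' : w' ∈ K.W)
    (hww : ∀ z, w' z = K.γ (w z)) (u : Fin 6 → ℂ) (hL : K.L 0 (w' (K.pt u)) ≠ 0) :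
    K.L 0 (w' (K.pt u)) ^ 4 * omega K.L (fun i => w (frame K.φ u i)) =
      K.κ * K.L 0 (w (K.pt u)) ^ 4 * omega K.L (fun i => w' (frame K.φ u i)) := by
  have hz : w' (K.pt u) ∈ K.C := (hK.mem_iff _ hw' _).2 (Cells.pt_mem hK u)
  obtain ⟨v, hv⟩ : ∃ v : Fin 7 → ι → ℂ, v = fun i => w' (frame K.φ u i) := ⟨_, rfl⟩
  obtain ⟨z, hzz⟩ : ∃ z : ι → ℂ, z = w' (K.pt u) := ⟨_, rfl⟩
  rw [← hzz] at hz hL ⊢
  rw [← hv]
  have h1 := g1 hGAM hK hN z hz hL v (fun i => by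
    rw [hv, hzz]
    exact gam_use0 hTAN hK w' hw' u i)
  have e1 : K.γ z = w (K.pt u) := by
    rw [hzz, hww, hN.γγ]
  have e2 : (fun i => K.γ (v i)) = fun i => w (frame K.φ u i) := by
    funext i
    rw [hv]
    simp only
    rw [hww, hN.γγ]
  rw [e1, e2] at h1
  exact h1
theorem rel_lemma (hTAN : S_TAN) (hGAM : S_GAM) {K : Cells ι} (hK : K.Cov) (hN : K.Nbr)
    (w : (ι → ℂ) ≃ₗ[ℂ] (ι → ℂ)) (w' : (ι → ℂ) ≃ₗ[ℂ] (ι → ℂ)) (hw' : w' ∈ K.W)
    (hww : ∀ z, w' z = K.γ (w z)) :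
    K.q w' ^ 4 * Jp K w = C K.κ * (K.q w ^ 4 * Jp K w') := by
  have hq'0 : K.q w' ≠ 0 := hK.q_ne _ hw'
  have h3 : K.q w' * (K.q w' ^ 4 * Jp K w - C K.κ * (K.q w ^ 4 * Jp K w')) = 0 := by
    apply MvPolynomial.funext
    intro u
    rw [map_mul, map_zero]
    by_cases c : eval u (K.q w') = 0
    · rw [c, zero_mul]
    have hL : K.L 0 (w' (K.pt u)) ≠ 0 := by rwa [← K.eval_q]
    have h1 := gam_use hTAN hGAM hK hN w w' hw' hww u hL
    rw [← eval_Jp, ← eval_Jp, ← K.eval_q, ← K.eval_q] at h1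
    rw [map_sub, map_mul, map_mul, map_mul, map_pow, map_pow, eval_C, h1]
    ring
  exact sub_eq_zero.1 ((mul_eq_zero.1 h3).resolve_left hq'0)

theorem alg_lemma (q q' J J' : MvPolynomial (Fin 6) ℂ) (κ : ℂ) (hκ : κ ≠ 0) (hq0 : q ≠ 0)
    (hcop : IsRelPrime q q') (rel : q' ^ 4 * J = C κ * (q ^ 4 * J'))
    (hJ : ∀ u, eval u q ≠ 0 → eval u J ≠ 0) (hJ' : ∀ u, eval u q' ≠ 0 → eval u J' ≠ 0) :
    ∃ c : ℂ, c ≠ 0 ∧ ∀ u, eval u J = c * eval u q ^ 4 := by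
  have hd : q ^ 4 ∣ J := by
    have h1 : IsRelPrime (q ^ 4) (q' ^ 4) := hcop.pow_left.pow_right
    refine h1.dvd_of_dvd_mul_left ?_
    rw [rel]
    exact ⟨C κ * J', by ring⟩
  obtain ⟨h, hh⟩ := hd
  have rel2 : q' ^ 4 * h = C κ * J' := by
    have h1 : q ^ 4 ≠ 0 := pow_ne_zero _ hq0
    apply mul_left_cancel₀ h1
    rw [hh] at rel
    linear_combination rel
  have hh0 : h ≠ 0 := by
    intro h0
    apply hq0
    apply MvPolynomial.funext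
    intro u
    rw [map_zero]
    by_contra c
    apply hJ u c
    rw [hh, h0, mul_zero, map_zero]
  have hunit : IsUnit h := by
    by_contra hu
    obtain ⟨p, hp, hph⟩ := WfDvdMonoid.exists_irreducible_factor hu hh0
    obtain ⟨r, hr⟩ := hph
    have d1 : p ∣ q := by
      refine null p _ hp fun u hpu => ?_
      by_contra c
      apply hJ u c
      rw [hh, hr, map_mul, map_mul, hpu, zero_mul, mul_zero]
    have d2 : p ∣ q' := by
      refine null p _ hp fun u hpu => ?_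
      by_contra c
      apply hJ' u c
      have h1 := congrArg (eval u) rel2
      rw [hr, map_mul, map_mul, hpu, map_mul, eval_C, zero_mul, mul_zero] at h1
      exact (mul_eq_zero.1 h1.symm).resolve_left hκ
    exact hp.not_isUnit (hcop d1 d2)
  obtain ⟨c, hc, hcu⟩ := (MvPolynomial.isUnit_iff_eq_C_of_isReduced).1 hunit
  refine ⟨c, hc.ne_zero, fun u => ?_⟩
  rw [hh, hcu, map_mul, map_pow, eval_C]
  ring

theorem jcw (hOMF : S_OMF) (hTAN : S_TAN) (hALT : S_ALT) (hGAM : S_GAM) : S_JCW := by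
  intro ι _ _ K hK hN w hw
  have hw' : w.trans K.γ ∈ K.W := hN.γ_mul w hw
  obtain ⟨c, hc, h⟩ := alg_lemma (K.q w) (K.q (w.trans K.γ)) (Jp K w) (Jp K (w.trans K.γ)) K.κ
    hN.κ_ne (hK.q_ne _ hw) (hN.cop w hw)
    (rel_lemma hTAN hGAM hK hN w (w.trans K.γ) hw' (fun z => LinearEquiv.trans_apply _))
    (fun u hu => J_ne hOMF hTAN hALT hK hN w hw u hu)
    (fun u hu => J_ne hOMF hTAN hALT hK hN _ hw' u hu)
  refine ⟨c, hc, fun u => ?_⟩
  have h1 := h u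
  rw [eval_Jp, K.eval_q] at h1
  exact h1

end Pool.Agent.T2h49.AP
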