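import Pool.Agent.T2h49.AP.TrB
import Pool.Agent.T2h19.AP.Stm

/-! Project AP, task PRD (helper49): the prime divisors which meet the basic cell. -/

set_option autoImplicit false

open MvPolynomial

namespace Pool.Agent.T2h49.AP

open Pool.Agent.T2h19.AP

variable {ι : Type} [Fintype ι] [DecidableEq ι]

omit [DecidableEq ι] in
/-- the value of a form at a multiple of a point -/
theorem eval_smul_hom {F : MvPolynomial ι ℂ} {n : ℕ} (hF : F.IsHomogeneous n) (t : ℂ) (z : ι → ℂ) :
    eval (t • z) F = t ^ n * eval z F := by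
  rw [eval_eq', eval_eq', Finset.mul_sum]
  refine Finset.sum_congr rfl fun d hd => ?_
  have h1 : d.degree = n := by
    by_contra h
    exact (mem_support_iff.1 hd) (hF.coeff_eq_zero h)
  have h2 : ∏ i, (t • z) i ^ d i = t ^ n * ∏ i, z i ^ d i := by
    simp only [Pi.smul_apply, smul_eq_mul, mul_pow]
    rw [Finset.prod_mul_distrib, Finset.prod_pow_eq_pow_sum]
    congr 2
    rw [← h1, Finsupp.degree_eq_sum]
  rw [h2]
  ring

omit [DecidableEq ι] in
theorem eval_pt_smul (K : Cells ι) {F : MvPolynomial ι ℂ} {n : ℕ} (hF : F.IsHomogeneous n) (t : ℂ)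
    (u : Fin 6 → ℂ) : eval (t • K.pt u) F = t ^ n * eval u (pull K.φ F) := by
  rw [eval_smul_hom hF, eval_pull]
  rfl

/-- homogenization -/
theorem homog (hHOM : S_HOM) {K : Cells ι} (hK : K.Cov) (f : MvPolynomial (Fin 6) ℂ) :
    ∃ (n : ℕ) (H : MvPolynomial ι ℂ), H.IsHomogeneous n ∧ pull K.φ H = f := by
  obtain ⟨M, hM⟩ := hHOM ι f
  obtain ⟨H, hH1, hH2⟩ := hM M le_rfl (form (K.L 0)) (fun j => form (K.L j.succ))
  refine ⟨M, H, hH2 (form_hom _) (fun j => form_hom _), ?_⟩
  apply MvPolynomial.funext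
  intro u
  have e0 : eval (K.pt u) (form (K.L 0)) = 1 := by rw [eval_form, Cells.L_zero_pt hK]
  have h1 := hH1 (K.pt u) (by rw [e0]; exact one_ne_zero)
  rw [e0, one_pow, one_mul] at h1
  rw [eval_pull]
  refine h1.trans ?_
  congr 2
  funext j
  rw [eval_form, Cells.L_succ_pt hK, div_one]

/-- comparison of two forms with the same restriction -/
theorem compare (hDEN : S_DEN) {K : Cells ι} (hK : K.Cov) {F G : MvPolynomial ι ℂ} {m n : ℕ}
    (hF : F.IsHomogeneous m) (hG : G.IsHomogeneous n) (h : pull K.φ F = pull K.φ G) :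
    form (K.L 0) ^ n * F - form (K.L 0) ^ m * G ∈ ideal K.C := by
  refine hDEN ι K hK _ fun t u => ?_
  rw [map_sub, map_mul, map_mul, map_pow, map_pow, eval_pt_smul K hF, eval_pt_smul K hG, h,
    eval_form, Cells.L_zero_smul hK]
  ring

/-- the ring homomorphism `X_i ↦ T φ_i` -/
noncomputable def Phi (K : Cells ι) : MvPolynomial ι ℂ →ₐ[ℂ] Polynomial (MvPolynomial (Fin 6) ℂ) :=
  aeval (fun i => Polynomial.C (K.φ i) * Polynomial.X)

omit [Fintype ι] [DecidableEq ι] in
theorem pull_add (φ : ι → MvPolynomial (Fin 6) ℂ) (F G : MvPolynomial ι ℂ) :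
    pull φ (F + G) = pull φ F + pull φ G := by unfold pull; exact map_add _ _ _

omit [Fintype ι] [DecidableEq ι] in
theorem pull_mul (φ : ι → MvPolynomial (Fin 6) ℂ) (F G : MvPolynomial ι ℂ) :
    pull φ (F * G) = pull φ F * pull φ G := by unfold pull; exact map_mul _ _ _

omit [Fintype ι] [DecidableEq ι] in
theorem pull_zero (φ : ι → MvPolynomial (Fin 6) ℂ) : pull φ 0 = 0 := by
  unfold pull; exact map_zero _

omit [Fintype ι] [DecidableEq ι] in
theorem pull_sum {α : Type} (φ : ι → MvPolynomial (Fin 6) ℂ) (S : Finset α)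
    (F : α → MvPolynomial ι ℂ) : pull φ (∑ i ∈ S, F i) = ∑ i ∈ S, pull φ (F i) := by
  unfold pull; exact map_sum _ _ _

omit [DecidableEq ι] in
theorem Phi_monomial (K : Cells ι) (d : ι →₀ ℕ) (c : ℂ) :
    Phi K (monomial d c) = Polynomial.C (pull K.φ (monomial d c)) * Polynomial.X ^ d.degree := by
  unfold Phi pull
  rw [aeval_monomial, aeval_monomial, map_mul]
  rw [Finsupp.prod_fintype _ _ (fun i => pow_zero _), Finsupp.prod_fintype _ _ (fun i => pow_zero _)]
  simp only [mul_pow]
  rw [Finset.prod_mul_distrib, Finset.prod_pow_eq_pow_sum, ← Finsupp.degree_eq_sum, map_prod]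
  simp only [map_pow]
  rw [mul_assoc]
  rfl

omit [DecidableEq ι] in
theorem Phi_hom (K : Cells ι) {F : MvPolynomial ι ℂ} {n : ℕ} (hF : F.IsHomogeneous n) :
    Phi K F = Polynomial.C (pull K.φ F) * Polynomial.X ^ n := by
  have e := F.as_sum
  conv_lhs => rw [e]
  conv_rhs => rw [e]
  rw [map_sum, pull_sum, map_sum, Finset.sum_mul]
  refine Finset.sum_congr rfl fun d hd => ?_
  have h1 : d.degree = n := by
    by_contra h
    exact (mem_support_iff.1 hd) (hF.coeff_eq_zero h)
  rw [Phi_monomial, h1]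

omit [DecidableEq ι] in
theorem Phi_coeff (K : Cells ι) (F : MvPolynomial ι ℂ) (n : ℕ) :
    (Phi K F).coeff n = pull K.φ (homogeneousComponent n F) := by
  have e := (sum_homogeneousComponent (φ := F)).symm
  have h1 : Phi K F = ∑ i ∈ Finset.range (F.totalDegree + 1),
      Polynomial.C (pull K.φ (homogeneousComponent i F)) * Polynomial.X ^ i := by
    conv_lhs => rw [e]
    rw [map_sum]
    exact Finset.sum_congr rfl fun i _ => Phi_hom K (homogeneousComponent_isHomogeneous i F)
  rw [h1, Polynomial.finsetSum_coeff]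
  simp only [Polynomial.coeff_C_mul_X_pow]
  by_cases hn : n ∈ Finset.range (F.totalDegree + 1)
  · rw [Finset.sum_eq_single n]
    · simp
    · intro b _ hb
      rw [if_neg (Ne.symm hb)]
    · intro h
      exact absurd hn h
  · have h2 : homogeneousComponent n F = 0 := by
      apply homogeneousComponent_eq_zero
      rw [Finset.mem_range] at hn
      omega
    rw [h2, pull_zero]
    refine Finset.sum_eq_zero fun i hi => ?_
    rw [if_neg]
    rintro rfl
    exact hn hi

/-- the ideal of the polynomials which are divisible by `f` -/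
noncomputable def Qf (K : Cells ι) (f : MvPolynomial (Fin 6) ℂ) : Ideal (MvPolynomial ι ℂ) :=
  Ideal.comap (Phi K) (Ideal.span {Polynomial.C f})

omit [DecidableEq ι] in
theorem mem_Qf (K : Cells ι) (f : MvPolynomial (Fin 6) ℂ) (F : MvPolynomial ι ℂ) :
    F ∈ Qf K f ↔ ∀ n, f ∣ pull K.φ (homogeneousComponent n F) := by
  unfold Qf
  rw [Ideal.mem_comap, Ideal.mem_span_singleton, Polynomial.C_dvd_iff_dvd_coeff]
  simp only [← Phi_coeff]

/-- the factor -/
theorem factor (hHOM : S_HOM) (hDEN : S_DEN) {K : Cells ι} (hK : K.Cov)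
    (P : Ideal (MvPolynomial ι ℂ)) (hP : P.IsPrime) (hCP : ideal K.C ≤ P)
    (hA : form (K.L 0) ∉ P) (f : MvPolynomial (Fin 6) ℂ) :
    f ≠ 0 → ∀ (n : ℕ) (F : MvPolynomial ι ℂ), F.IsHomogeneous n → F ∈ P → pull K.φ F = f →
      ∃ p : MvPolynomial (Fin 6) ℂ, Irreducible p ∧
        ∃ (m : ℕ) (G : MvPolynomial ι ℂ), G.IsHomogeneous m ∧ G ∈ P ∧ pull K.φ G = p := by
  have hApow : ∀ k : ℕ, form (K.L 0) ^ k ∉ P := fun k h => hA (hP.mem_of_pow_mem k h)
  induction f using WfDvdMonoid.induction_on_irreducible with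
  | zero => intro h; exact absurd rfl h
  | unit u hu =>
    intro _ n F hF hFP hFu
    exfalso
    obtain ⟨c, hc, hcu⟩ := (MvPolynomial.isUnit_iff_eq_C_of_isReduced).1 hu
    have h1 : pull K.φ (C c) = u := by
      rw [hcu]
      apply MvPolynomial.funext
      intro v
      rw [eval_pull, eval_C, eval_C]
    have h2 := hCP (compare hDEN hK hF (isHomogeneous_C ι c) (hFu.trans h1.symm))
    rw [pow_zero, one_mul] at h2
    have h3 : form (K.L 0) ^ n * C c ∈ P := by
      have := P.sub_mem hFP h2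
      rwa [sub_sub_cancel] at this
    rcases hP.mem_or_mem h3 with h | h
    · exact hApow n h
    · have h4 : IsUnit (C c : MvPolynomial ι ℂ) := hc.map C
      exact hP.ne_top (Ideal.eq_top_of_isUnit_mem _ h h4)
  | mul a i ha hi ih =>
    intro _ n F hF hFP hFu
    obtain ⟨m₁, I, hI, hI'⟩ := homog hHOM hK i
    obtain ⟨m₂, G, hG, hG'⟩ := homog hHOM hK a
    have h1 : pull K.φ F = pull K.φ (I * G) := by rw [hFu, pull_mul, hI', hG']
    have h2 := hCP (compare hDEN hK hF (hI.mul hG) h1)
    have h3 : form (K.L 0) ^ n * (I * G) ∈ P := by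
      have := P.sub_mem (P.mul_mem_left (form (K.L 0) ^ (m₁ + m₂)) hFP) h2
      rwa [sub_sub_cancel] at this
    rcases hP.mem_or_mem h3 with h | h
    · exact absurd h (hApow n)
    · rcases hP.mem_or_mem h with h | h
      · exact ⟨i, hi, m₁, I, hI, h, hI'⟩
      · exact ih ha m₂ G hG h hG'

theorem prd (hHOM : S_HOM) (hDEN : S_DEN) (hVAR : S_VAR) : S_PRD := by
  intro ι _ _ K hK P hP hz
  obtain ⟨⟨hprime, hhom, _⟩, hlt, hmin⟩ := hP
  obtain ⟨z₀, hz₀, hL⟩ := hz
  have hCP : ideal K.C ≤ P := hlt.le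
  have hA : form (K.L 0) ∉ P := by
    intro h
    have := hz₀.2 _ h
    rw [eval_form] at this
    exact hL this
  have hApow : ∀ k : ℕ, form (K.L 0) ^ k ∉ P := fun k h => hA (hprime.mem_of_pow_mem k h)
  -- a form of `P` which is not in the ideal of `C`
  obtain ⟨F, hFP, hFC⟩ := Set.exists_of_ssubset hlt
  obtain ⟨n, hn⟩ : ∃ n, homogeneousComponent n F ∉ ideal K.C := by
    by_contra h
    push Not at h
    apply hFC
    have e := (sum_homogeneousComponent (φ := F)).symm
    rw [e]
    exact (ideal K.C).sum_mem fun i _ => h i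
  have hF1 : (homogeneousComponent n F).IsHomogeneous n := homogeneousComponent_isHomogeneous n F
  have hF2 : homogeneousComponent n F ∈ P := hhom F hFP n
  have hF3 : pull K.φ (homogeneousComponent n F) ≠ 0 := by
    intro h
    apply hn
    refine hDEN ι K hK _ fun t u => ?_
    rw [eval_pt_smul K hF1, h, map_zero, mul_zero]
  obtain ⟨f, hf, m, G, hG, hGP, hGf⟩ := factor hHOM hDEN hK P hprime hCP hA _ hF3 n _ hF1 hF2 rfl
  have hfp : Prime f := hf.prime
  -- the ideal `Q`
  have hQC : ideal K.C ≤ Qf K f := by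
    intro H hH
    rw [mem_Qf]
    intro k
    have h1 := (hVAR ι K hK).1.homogeneous H hH k
    have h2 : pull K.φ (homogeneousComponent k H) = 0 := by
      apply MvPolynomial.funext
      intro u
      rw [eval_pull, map_zero]
      exact h1 _ (Cells.pt_mem hK u)
    rw [h2]
    exact dvd_zero f
  have hQP : Qf K f ≤ P := by
    intro H hH
    rw [mem_Qf] at hH
    have e := (sum_homogeneousComponent (φ := H)).symm
    rw [e]
    refine P.sum_mem fun i _ => ?_
    obtain ⟨h, hh⟩ := hH i
    obtain ⟨k, R, hR, hR'⟩ := homog hHOM hK h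
    have h1 : pull K.φ (homogeneousComponent i H) = pull K.φ (G * R) := by
      rw [hh, pull_mul, hGf, hR']
    have h2 := hCP (compare hDEN hK (homogeneousComponent_isHomogeneous i H) (hG.mul hR) h1)
    have h3 : form (K.L 0) ^ (m + k) * homogeneousComponent i H ∈ P := by
      have := P.add_mem h2 (P.mul_mem_left (form (K.L 0) ^ i) (P.mul_mem_right R hGP))
      rwa [sub_add_cancel] at this
    exact (hprime.mem_or_mem h3).resolve_left (hApow _)
  have hGQ : G ∈ Qf K f := by
    rw [mem_Qf]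
    intro k
    rw [homogeneousComponent_of_mem ((mem_homogeneousSubmodule _ _).2 hG)]
    split_ifs
    · rw [hGf]
    · rw [pull_zero]
      exact dvd_zero f
  have hGC : G ∉ ideal K.C := by
    intro h
    apply hf.ne_zero
    rw [← hGf]
    apply MvPolynomial.funext
    intro u
    rw [eval_pull, map_zero]
    exact h _ (Cells.pt_mem hK u)
  have hQV : IsVariety (Qf K f) := by
    refine ⟨?_, ?_, z₀, hz₀.1, fun H hH => hz₀.2 H (hQP hH)⟩
    · have h1 : (Ideal.span {Polynomial.C f}).IsPrime :=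
        (Ideal.span_singleton_prime (Polynomial.prime_C_iff.2 hfp).ne_zero).2
          (Polynomial.prime_C_iff.2 hfp)
      unfold Qf
      exact Ideal.IsPrime.comap (Phi K)
    · intro H hH k
      rw [mem_Qf] at hH ⊢
      intro l
      rw [homogeneousComponent_of_mem
        ((mem_homogeneousSubmodule _ _).2 (homogeneousComponent_isHomogeneous k H))]
      split_ifs
      · exact hH k
      · rw [pull_zero]
        exact dvd_zero f
  have hQ : Qf K f = P := by
    rcases hmin _ hQV hQC hQP with h | h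
    · rw [h] at hGQ
      exact absurd hGQ hGC
    · exact h
  have hmem : ∀ F, F ∈ P ↔ ∀ n, f ∣ pull K.φ (homogeneousComponent n F) := by
    intro F
    rw [← hQ]
    exact mem_Qf K f F
  refine ⟨f, hf, fun t ht u => ⟨fun h => ?_, fun h => ⟨?_, fun H hH => ?_⟩⟩, hmem⟩
  · have h1 := h.2 G hGP
    rw [eval_pt_smul K hG, hGf] at h1
    exact (mul_eq_zero.1 h1).resolve_left (pow_ne_zero _ ht)
  · intro h0
    rcases smul_eq_zero.1 h0 with h1 | h1
    · exact ht h1
    · exact Cells.pt_ne hK u h1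
  · rw [hmem] at hH
    have e := (sum_homogeneousComponent (φ := H)).symm
    rw [e, map_sum]
    refine Finset.sum_eq_zero fun i _ => ?_
    obtain ⟨r, hr⟩ := hH i
    rw [eval_pt_smul K (homogeneousComponent_isHomogeneous i H), hr, map_mul, h, zero_mul, mul_zero]

end Pool.Agent.T2h49.AP
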