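import Pool.Agent.T2h19.AP.Base

/-! Project AP (helper49): auxiliary facts on the transition functions. -/

set_option autoImplicit false

open MvPolynomial

namespace Pool.Agent.T2h49.AP

open Pool.Agent.T2h19.AP

variable {ι : Type} [Fintype ι] [DecidableEq ι]

/-- the polynomial `L_(j+1) ∘ w ∘ φ` -/
noncomputable def pj (K : Cells ι) (w : (ι → ℂ) ≃ₗ[ℂ] (ι → ℂ)) (j : Fin 6) :
    MvPolynomial (Fin 6) ℂ := pull K.φ (form (K.L j.succ ∘ₗ w.toLinearMap))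

theorem eval_pj (K : Cells ι) (w : (ι → ℂ) ≃ₗ[ℂ] (ι → ℂ)) (j : Fin 6) (u : Fin 6 → ℂ) :
    eval u (pj K w j) = K.L j.succ (w (K.pt u)) := by
  unfold pj
  rw [eval_pull, eval_form]
  rfl

theorem trans_pt {K : Cells ι} (hK : K.Cov) (w : (ι → ℂ) ≃ₗ[ℂ] (ι → ℂ)) (u : Fin 6 → ℂ)
    (hC : w (K.pt u) ∈ K.C) (h : eval u (K.q w) ≠ 0) :
    w (K.pt u) = eval u (K.q w) • K.pt (fun j => eval u (pj K w j) / eval u (K.q w)) := by
  have e := K.eval_q w u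
  rw [e] at h
  have h1 := Cells.eq_smul hK hC h
  rw [e]
  simp only [eval_pj]
  exact h1

theorem L_succ_smul {K : Cells ι} (hK : K.Cov) (t : ℂ) (u : Fin 6 → ℂ) (j : Fin 6) :
    K.L j.succ (t • K.pt u) = t * u j := by
  rw [map_smul, Cells.L_succ_pt hK, smul_eq_mul]

/-- points in two cells -/
theorem two_cells {K : Cells ι} (hK : K.Cov) (w₁ w₂ : (ι → ℂ) ≃ₗ[ℂ] (ι → ℂ)) (t₁ t₂ : ℂ)
    (u₁ u₂ : Fin 6 → ℂ) (h1 : t₁ ≠ 0) (h2 : t₂ ≠ 0)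
    (h : w₁ (t₁ • K.pt u₁) = w₂ (t₂ • K.pt u₂)) :
    eval u₁ (K.q (w₁.trans w₂.symm)) = t₂ / t₁ ∧
      (fun j => eval u₁ (pj K (w₁.trans w₂.symm) j) / eval u₁ (K.q (w₁.trans w₂.symm))) = u₂ := by
  have h3 : w₂.symm (w₁ (K.pt u₁)) = (t₂ / t₁) • K.pt u₂ := by
    have h4 : w₁ (K.pt u₁) = w₂ ((t₂ / t₁) • K.pt u₂) := by
      have h5 : t₁⁻¹ • w₁ (t₁ • K.pt u₁) = t₁⁻¹ • w₂ (t₂ • K.pt u₂) := by rw [h]
      rw [← map_smul, ← map_smul, smul_smul, smul_smul, inv_mul_cancel₀ h1, one_smul] at h5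
      rw [h5, div_eq_inv_mul]
    rw [h4, LinearEquiv.symm_apply_apply]
  have e0 : eval u₁ (K.q (w₁.trans w₂.symm)) = t₂ / t₁ := by
    rw [K.eval_q, LinearEquiv.trans_apply, h3, Cells.L_zero_smul hK]
  refine ⟨e0, ?_⟩
  funext j
  rw [e0, eval_pj, LinearEquiv.trans_apply, h3, L_succ_smul hK]
  have : t₂ / t₁ ≠ 0 := div_ne_zero h2 h1
  rw [mul_comm, mul_div_assoc, div_self this, mul_one]

end Pool.Agent.T2h49.AP
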